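import Pool.Agent.Helper95.SIG.Defs

set_option autoImplicit false
open Finset

namespace Pool.Agent.Helper95.SIG

lemma norm_argdiff (x y : ℂ) (hx : x ≠ 0) (hy : y ≠ 0) :
    ‖((x.arg : ℝ) : AddCircle (2 * Real.pi)) - ((y.arg : ℝ) : AddCircle (2 * Real.pi))‖
      = InnerProductGeometry.angle x y := by
  rw [Complex.angle_eq_abs_arg hx hy]
  have h1 : (((x / y).arg : ℝ) : AddCircle (2 * Real.pi))
      = ((x.arg : ℝ) : AddCircle (2 * Real.pi)) - ((y.arg : ℝ) : AddCircle (2 * Real.pi)) :=
    Complex.arg_div_coe_angle hx hy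
  rw [← h1]
  refine (AddCircle.norm_coe_eq_abs_iff (2 * Real.pi) (by positivity)).2 ?_
  have h2 := Complex.abs_arg_le_pi (x / y)
  rw [abs_of_pos (by positivity : (0:ℝ) < 2 * Real.pi)]
  linarith

/-- Disjoint arcs on the circle: nonzero vectors of the plane with half-widths `h i`, such that the
angle between two of them is at least `h i + h j`, satisfy `∑ h i ≤ π`.
Hint: arcs `Metric.closedBall (arg (v i)) (h i)` in `AddCircle (2 * π)` (or in `Real.Angle`), measure
of a closed ball `AddCircle.volume_closedBall`, total measure `2 π`; two closed balls meet in at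
most null sets, or use radius `(1 - ε) h i` and let `ε → 0`. Alternatively sort the arguments in
`(-π, π]` and telescope. -/
theorem arcs_sum {ι : Type*} (s : Finset ι) (v : ι → Pl) (h : ι → ℝ)
    (hv : ∀ i ∈ s, v i ≠ 0) (h0 : ∀ i ∈ s, 0 ≤ h i) (h1 : ∀ i ∈ s, h i ≤ Real.pi)
    (hpair : ∀ i ∈ s, ∀ j ∈ s, i ≠ j → h i + h j ≤ InnerProductGeometry.angle (v i) (v j)) :
    ∑ i ∈ s, h i ≤ Real.pi := by
  classical
  have : Fact (0 < 2 * Real.pi) := ⟨by positivity⟩
  set e : Pl ≃ₗᵢ[ℝ] ℂ := Complex.orthonormalBasisOneI.repr.symm with he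
  set c : ι → AddCircle (2 * Real.pi) := fun i => (((e (v i)).arg : ℝ) : AddCircle (2 * Real.pi))
    with hc
  have hez : ∀ i ∈ s, e (v i) ≠ 0 := fun i hi h' => hv i hi (by simpa using h')
  have hd : ∀ i ∈ s, ∀ j ∈ s, dist (c i) (c j) = InnerProductGeometry.angle (v i) (v j) := by
    intro i hi j hj
    rw [dist_eq_norm, hc]
    simp only
    rw [norm_argdiff _ _ (hez i hi) (hez j hj)]
    exact e.toLinearIsometry.angle_map (v i) (v j)
  have hdisj : (s : Set ι).PairwiseDisjoint (fun i => Metric.ball (c i) (h i)) := by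
    intro i hi j hj hij
    refine Metric.ball_disjoint_ball ?_
    rw [hd i hi j hj]
    exact hpair i hi j hj hij
  have hvol : ∀ i ∈ s, MeasureTheory.volume (Metric.ball (c i) (h i)) = ENNReal.ofReal (2 * h i) := by
    intro i hi
    rw [← MeasureTheory.measure_congr (AddCircle.closedBall_ae_eq_ball (x := c i) (ε := h i)),
      AddCircle.volume_closedBall, min_eq_right]
    linarith [h1 i hi]
  have hsum : MeasureTheory.volume (⋃ i ∈ s, Metric.ball (c i) (h i))
      = ∑ i ∈ s, ENNReal.ofReal (2 * h i) := by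
    rw [MeasureTheory.measure_biUnion_finset hdisj (fun i _ => Metric.isOpen_ball.measurableSet)]
    exact Finset.sum_congr rfl hvol
  have hle : ∑ i ∈ s, ENNReal.ofReal (2 * h i) ≤ ENNReal.ofReal (2 * Real.pi) := by
    rw [← hsum, ← AddCircle.measure_univ]
    exact MeasureTheory.measure_mono (Set.subset_univ _)
  rw [← ENNReal.ofReal_sum_of_nonneg (fun i hi => by linarith [h0 i hi])] at hle
  have h3 := (ENNReal.ofReal_le_ofReal_iff (by positivity)).1 hle
  rw [← Finset.mul_sum] at h3
  linarith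

end Pool.Agent.Helper95.SIG
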