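import Mathlib

/-!
# Sphere-of-influence graphs in the plane (MP_62479d_co): definitions
-/

set_option autoImplicit false

namespace Pool.Agent.Helper95.SIG

/-- The Euclidean plane. -/
abbrev Pl := EuclideanSpace ℝ (Fin 2)

/-- Distance from `p` to the nearest other point of `P`. -/
noncomputable def nnd (P : Finset Pl) (p : Pl) : ℝ :=
  sInf {x : ℝ | ∃ q ∈ P, q ≠ p ∧ x = dist p q}

/-- The sphere-of-influence graph: `p` and `q` are adjacent iff the open discs around them whose
radii are the nearest neighbour distances meet. -/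
noncomputable def sig (P : Finset Pl) : SimpleGraph P where
  Adj p q := p ≠ q ∧ dist (p : Pl) q < nnd P p + nnd P q
  symm := ⟨fun _ _ h => ⟨h.1.symm, by rw [dist_comm, add_comm]; exact h.2⟩⟩
  loopless := ⟨fun p h => h.1 rfl⟩

/-- The closed version: closed discs meet. -/
noncomputable def sigClosed (P : Finset Pl) : SimpleGraph P where
  Adj p q := p ≠ q ∧ dist (p : Pl) q ≤ nnd P p + nnd P q
  symm := ⟨fun _ _ h => ⟨h.1.symm, by rw [dist_comm, add_comm]; exact h.2⟩⟩
  loopless := ⟨fun p h => h.1 rfl⟩

/-- Distance parameter of a type: `t` is the ratio of the radii, `δ ∈ [0,1]`. -/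
noncomputable def dd (t δ : ℝ) : ℝ := max 1 t + δ * min 1 t

/-- Cosine of the angle at `p` in a triangle with sides `d`, `d'` at `p` and opposite side `m`. -/
noncomputable def FF (d d' m : ℝ) : ℝ := (d ^ 2 + d' ^ 2 - m ^ 2) / (2 * d * d')

end Pool.Agent.Helper95.SIG
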