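import Pool.Agent.Helper95.SIG.Defs

set_option autoImplicit false

namespace Pool.Agent.Helper95.SIG

/-- The cross-multiplied comparison. -/
private theorem FF_le_of_cross {d d' m e e' n : ℝ} (hd : 0 < d) (hd' : 0 < d') (he : 0 < e)
    (he' : 0 < e')
    (h : (d ^ 2 + d' ^ 2 - m ^ 2) * (e * e') ≤ (e ^ 2 + e' ^ 2 - n ^ 2) * (d * d')) :
    FF d d' m ≤ FF e e' n := by
  unfold FF
  rw [div_le_div_iff₀ (by positivity) (by positivity)]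
  nlinarith

private theorem dd_of_le {t δ : ℝ} (h : t ≤ 1) : dd t δ = 1 + δ * t := by
  unfold dd
  rw [max_eq_left h, min_eq_right h]

private theorem dd_of_ge {t δ : ℝ} (h : 1 ≤ t) : dd t δ = t + δ := by
  unfold dd
  rw [max_eq_right h, min_eq_left h, mul_one]

private theorem FF_anti_ge {t0 t δ d' : ℝ} (h0 : 1 ≤ t0) (h : t0 ≤ t) (hδ0 : 0 ≤ δ)
    (hδ1 : δ ≤ 1) (hd' : 1 ≤ d') : FF (dd t δ) d' t ≤ FF (dd t0 δ) d' t0 := by
  have ht : 1 ≤ t := h0.trans h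
  rw [dd_of_ge h0, dd_of_ge ht]
  refine FF_le_of_cross (by linarith) (by linarith) (by linarith) (by linarith) ?_
  have h1 : 0 ≤ d' ^ 2 - δ ^ 2 := by nlinarith
  have h2 : 0 ≤ d' * ((t - t0) * (d' ^ 2 - δ ^ 2)) :=
    mul_nonneg (by linarith) (mul_nonneg (by linarith) h1)
  nlinarith [h2]

private theorem FF_anti_le {t0 t δ d' : ℝ} (h0 : 0 < t0) (h : t0 ≤ t) (ht : t ≤ 1)
    (hδ0 : 0 ≤ δ) (hδ1 : δ ≤ 1) (hd' : 1 ≤ d') :
    FF (dd t δ) d' t ≤ FF (dd t0 δ) d' t0 := by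
  have ht0 : t0 ≤ 1 := h.trans ht
  have htp : 0 < t := h0.trans_le h
  rw [dd_of_le ht, dd_of_le ht0]
  refine FF_le_of_cross (by positivity) (by linarith) (by positivity) (by linarith) ?_
  have h1 : 0 ≤ 1 - δ ^ 2 := by nlinarith
  have h2 : 0 ≤ d' ^ 2 - 1 := by nlinarith
  have h3 : 0 ≤ δ * (d' ^ 2 - 1) + (1 - δ ^ 2) * (t + t0) + δ * (1 - δ ^ 2) * (t * t0) := by
    have e1 : 0 ≤ δ * (d' ^ 2 - 1) := mul_nonneg hδ0 h2
    have e2 : 0 ≤ (1 - δ ^ 2) * (t + t0) := mul_nonneg h1 (by linarith)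
    have e3 : 0 ≤ δ * (1 - δ ^ 2) * (t * t0) :=
      mul_nonneg (mul_nonneg hδ0 h1) (mul_nonneg htp.le h0.le)
    linarith
  have h4 : 0 ≤ d' * ((t - t0) *
      (δ * (d' ^ 2 - 1) + (1 - δ ^ 2) * (t + t0) + δ * (1 - δ ^ 2) * (t * t0))) :=
    mul_nonneg (by linarith) (mul_nonneg (by linarith) h3)
  nlinarith [h4]

/-- B1: the cosine decreases in the larger ratio. Hint: cases `t0 ≤ t ≤ 1`, `1 ≤ t0 ≤ t`, and
`t0 ≤ 1 ≤ t` through `1`; cross multiply. Derivative signs: for `t ≥ 1` it is `δ² - d'²`, for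
`t ≤ 1` it is `δ (d² + t² - d'²) - 2 t d ≤ (δ² - 1)(2 t + δ t²)`. -/
theorem FF_anti {t0 t δ d' : ℝ} (h0 : 0 < t0) (h : t0 ≤ t) (hδ0 : 0 ≤ δ) (hδ1 : δ ≤ 1)
    (hd' : 1 ≤ d') : FF (dd t δ) d' t ≤ FF (dd t0 δ) d' t0 := by
  rcases le_total t 1 with ht | ht
  · exact FF_anti_le h0 h ht hδ0 hδ1 hd'
  · rcases le_total t0 1 with ht0 | ht0
    · exact (FF_anti_ge le_rfl ht hδ0 hδ1 hd').trans (FF_anti_le h0 ht0 le_rfl hδ0 hδ1 hd')
    · exact FF_anti_ge ht0 h hδ0 hδ1 hd'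

private theorem FF_diag_ge {t0 t δ δ' : ℝ} (h0 : 1 ≤ t0) (h : t0 ≤ t) (hδ0 : 0 ≤ δ)
    (hδ0' : 0 ≤ δ') :
    FF (dd t δ) (dd t δ') t ≤ FF (dd t0 δ) (dd t0 δ') t0 := by
  have ht : 1 ≤ t := h0.trans h
  rw [dd_of_ge h0, dd_of_ge ht, dd_of_ge h0, dd_of_ge ht]
  refine FF_le_of_cross (by linarith) (by linarith) (by linarith) (by linarith) ?_
  have hs : 0 ≤ δ + δ' := by linarith
  have hc : 0 ≤ (δ + δ') ^ 2 - 3 * (δ * δ') := by nlinarith [sq_nonneg (δ - δ'), mul_nonneg hδ0 hδ0']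
  have h1 : 0 ≤ (δ + δ') * (t * t0 + (δ - δ') ^ 2) := by
    refine mul_nonneg hs (add_nonneg (mul_nonneg (by linarith) (by linarith)) (sq_nonneg _))
  have h2 : 0 ≤ ((δ + δ') ^ 2 - 3 * (δ * δ')) * (t + t0) := mul_nonneg hc (by linarith)
  have h3 : 0 ≤ (t - t0) * ((δ + δ') * (t * t0 + (δ - δ') ^ 2)
      + ((δ + δ') ^ 2 - 3 * (δ * δ')) * (t + t0)) :=
    mul_nonneg (by linarith) (by linarith)
  nlinarith [h3]

private theorem FF_diag_le {t0 t δ δ' : ℝ} (h0 : 0 < t0) (h : t0 ≤ t) (ht : t ≤ 1)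
    (hδ0 : 0 ≤ δ) (hδ1 : δ ≤ 1) (hδ0' : 0 ≤ δ') (hδ1' : δ' ≤ 1) :
    FF (dd t δ) (dd t δ') t ≤ FF (dd t0 δ) (dd t0 δ') t0 := by
  have ht0 : t0 ≤ 1 := h.trans ht
  have htp : 0 < t := h0.trans_le h
  rw [dd_of_le ht, dd_of_le ht0, dd_of_le ht, dd_of_le ht0]
  refine FF_le_of_cross (by positivity) (by positivity) (by positivity) (by positivity) ?_
  have hq : 0 ≤ 1 - (δ - δ') ^ 2 := by nlinarith
  have h1 : 0 ≤ (t - t0) * ((t + t0) + (δ + δ') * (t * t0)) := by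
    refine mul_nonneg (by linarith) (add_nonneg (by linarith) ?_)
    exact mul_nonneg (by linarith) (mul_nonneg htp.le h0.le)
  have h2 : 0 ≤ (1 - (δ - δ') ^ 2) * ((t - t0) * ((t + t0) + (δ + δ') * (t * t0))) :=
    mul_nonneg hq h1
  nlinarith [h2]

/-- B2: the same on the diagonal. -/
theorem FF_diag {t0 t δ δ' : ℝ} (h0 : 0 < t0) (h : t0 ≤ t) (hδ0 : 0 ≤ δ) (hδ1 : δ ≤ 1)
    (hδ0' : 0 ≤ δ') (hδ1' : δ' ≤ 1) :
    FF (dd t δ) (dd t δ') t ≤ FF (dd t0 δ) (dd t0 δ') t0 := by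
  rcases le_total t 1 with ht | ht
  · exact FF_diag_le h0 h ht hδ0 hδ1 hδ0' hδ1'
  · rcases le_total t0 1 with ht0 | ht0
    · exact (FF_diag_ge le_rfl ht hδ0 hδ0').trans
        (FF_diag_le h0 ht0 le_rfl hδ0 hδ1 hδ0' hδ1')
    · exact FF_diag_ge ht0 h hδ0 hδ0'

private theorem quad_corner {a b x e k : ℝ} (hax : a ≤ x) (hxb : x ≤ b)
    (h1 : a ^ 2 + k - 2 * (e * a) ≤ 0) (h2 : b ^ 2 + k - 2 * (e * b) ≤ 0) :
    x ^ 2 + k - 2 * (e * x) ≤ 0 := by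
  rcases eq_or_lt_of_le (hax.trans hxb) with hab | hab
  · have : x = a := le_antisymm (by rw [hab]; exact hxb) hax
    rw [this]; exact h1
  · by_contra hcon
    push Not at hcon
    have e1 : (b - x) * (a ^ 2 + k - 2 * (e * a)) ≤ 0 :=
      mul_nonpos_of_nonneg_of_nonpos (by linarith) h1
    have e2 : (x - a) * (b ^ 2 + k - 2 * (e * b)) ≤ 0 :=
      mul_nonpos_of_nonneg_of_nonpos (by linarith) h2
    have e3 : 0 ≤ (b - a) * ((x - a) * (b - x)) :=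
      mul_nonneg (by linarith) (mul_nonneg (by linarith) (by linarith))
    have e4 : 0 < (b - a) * (x ^ 2 + k - 2 * (e * x)) := mul_pos (by linarith) hcon
    nlinarith [e1, e2, e3, e4]

/-- B3: convexity: the four corners of a rectangle are enough. -/
theorem FF_corners {a b a' b' m c d d' : ℝ} (ha : 0 < a) (ha' : 0 < a')
    (hd : a ≤ d) (hd2 : d ≤ b) (hd' : a' ≤ d') (hd2' : d' ≤ b')
    (h1 : a ^ 2 + a' ^ 2 - m ^ 2 ≤ 2 * c * (a * a')) (h2 : a ^ 2 + b' ^ 2 - m ^ 2 ≤ 2 * c * (a * b'))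
    (h3 : b ^ 2 + a' ^ 2 - m ^ 2 ≤ 2 * c * (b * a'))
    (h4 : b ^ 2 + b' ^ 2 - m ^ 2 ≤ 2 * c * (b * b')) : FF d d' m ≤ c := by
  have hdp : 0 < d := ha.trans_le hd
  have hdp' : 0 < d' := ha'.trans_le hd'
  have k1 : d' ^ 2 + (a ^ 2 - m ^ 2) - 2 * ((c * a) * d') ≤ 0 :=
    quad_corner hd' hd2' (by nlinarith) (by nlinarith)
  have k2 : d' ^ 2 + (b ^ 2 - m ^ 2) - 2 * ((c * b) * d') ≤ 0 :=
    quad_corner hd' hd2' (by nlinarith) (by nlinarith)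
  have k3 : d ^ 2 + (d' ^ 2 - m ^ 2) - 2 * ((c * d') * d) ≤ 0 :=
    quad_corner hd hd2 (by nlinarith) (by nlinarith)
  unfold FF
  rw [div_le_iff₀ (by positivity)]
  nlinarith

end Pool.Agent.Helper95.SIG
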