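import Pool.Agent.Helper95.SIG.Defs

set_option autoImplicit false

namespace Pool.Agent.Helper95.SIG

/-- B4: cosine law. If `|q - q'|` is at least `m` times `r`, where `|q - p| = d r`, `|q' - p| = d' r`
and `FF d d' m ≤ cos θ` with `0 ≤ θ ≤ π`, then the angle at `p` is at least `θ`. -/
theorem angle_ge {p q q' : Pl} {r d d' m θ : ℝ} (hr : 0 < r) (hd : 0 < d) (hd' : 0 < d')
    (hm : 0 ≤ m) (h1 : dist q p = d * r) (h2 : dist q' p = d' * r) (h3 : m * r ≤ dist q q')
    (hθ0 : 0 ≤ θ) (hθ1 : θ ≤ Real.pi) (hF : FF d d' m ≤ Real.cos θ) :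
    θ ≤ InnerProductGeometry.angle (q - p) (q' - p) := by
  have key := InnerProductGeometry.norm_sub_sq_eq_norm_sq_add_norm_sq_sub_two_mul_norm_mul_norm_mul_cos_angle
    (q - p) (q' - p)
  have e1 : ‖q - p‖ = d * r := by rw [← dist_eq_norm, h1]
  have e2 : ‖q' - p‖ = d' * r := by rw [← dist_eq_norm, h2]
  have e3 : ‖q - p - (q' - p)‖ = dist q q' := by rw [dist_eq_norm, sub_sub_sub_cancel_right]
  rw [e1, e2, e3] at key
  set A := InnerProductGeometry.angle (q - p) (q' - p) with hA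
  have hsq : (m * r) * (m * r) ≤ dist q q' * dist q q' :=
    mul_self_le_mul_self (mul_nonneg hm hr.le) h3
  have hcos : Real.cos A ≤ FF d d' m := by
    have hpos : 0 < 2 * d * d' := by positivity
    rw [FF, le_div_iff₀ hpos]
    have hr2 : 0 < r * r := mul_pos hr hr
    refine le_of_mul_le_mul_right ?_ hr2
    nlinarith [key, hsq]
  have hAc : Real.cos A ≤ Real.cos θ := hcos.trans hF
  exact (Real.strictAntiOn_cos.le_iff_ge ⟨InnerProductGeometry.angle_nonneg _ _,
    InnerProductGeometry.angle_le_pi _ _⟩ ⟨hθ0, hθ1⟩).1 hAc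

end Pool.Agent.Helper95.SIG
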