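import Pool.Agent.Helper95.SIG.Defs

set_option autoImplicit false

namespace Pool.Agent.Helper95.SIG

theorem geo3_aux (f f' : ℝ → ℝ) (hf : ∀ x, HasDerivAt f (f' x) x) (h0 : f 0 = 0)
    (h' : ∀ x, 0 ≤ x → 0 ≤ f' x) : ∀ x, 0 ≤ x → 0 ≤ f x := by
  intro x hx
  have hm : MonotoneOn f (Set.Ici 0) := by
    apply monotoneOn_of_deriv_nonneg (convex_Ici 0)
    · exact fun y _ => (hf y).continuousAt.continuousWithinAt
    · exact fun y _ => (hf y).differentiableAt.differentiableWithinAt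
    · intro y hy
      rw [(hf y).deriv]
      rw [interior_Ici] at hy
      exact h' y (le_of_lt hy)
  have := hm (Set.mem_Ici.mpr le_rfl) (Set.mem_Ici.mpr hx) hx
  rwa [h0] at this

/-- B5: polynomial lower bound of the cosine. -/
theorem cos_ge_poly {x : ℝ} (hx : 0 ≤ x) :
    1 - x ^ 2 / 2 + x ^ 4 / 24 - x ^ 6 / 720 ≤ Real.cos x := by
  have h1 : ∀ x : ℝ, 0 ≤ x → 0 ≤ x - Real.sin x := fun x hx => by
    have := Real.sin_le hx
    linarith
  have h2 : ∀ x : ℝ, 0 ≤ x → 0 ≤ Real.cos x - (1 - x ^ 2 / 2) := by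
    apply geo3_aux _ (fun x => x - Real.sin x) _ (by simp) h1
    intro x
    have := (Real.hasDerivAt_cos x).sub
      (((hasDerivAt_const x (1 : ℝ)).sub ((hasDerivAt_pow 2 x).div_const 2)))
    refine this.congr_deriv ?_
    norm_num
    ring
  have h3 : ∀ x : ℝ, 0 ≤ x → 0 ≤ Real.sin x - (x - x ^ 3 / 6) := by
    apply geo3_aux _ (fun x => Real.cos x - (1 - x ^ 2 / 2)) _ (by simp) h2
    intro x
    have := (Real.hasDerivAt_sin x).sub
      (((hasDerivAt_id x).sub ((hasDerivAt_pow 3 x).div_const 6)))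
    refine this.congr_deriv ?_
    norm_num
    ring
  have h4 : ∀ x : ℝ, 0 ≤ x → 0 ≤ (1 - x ^ 2 / 2 + x ^ 4 / 24) - Real.cos x := by
    apply geo3_aux _ (fun x => Real.sin x - (x - x ^ 3 / 6)) _ (by simp) h3
    intro x
    have := (((hasDerivAt_const x (1 : ℝ)).sub ((hasDerivAt_pow 2 x).div_const 2)).add
      ((hasDerivAt_pow 4 x).div_const 24)).sub (Real.hasDerivAt_cos x)
    refine this.congr_deriv ?_
    norm_num
    ring
  have h5 : ∀ x : ℝ, 0 ≤ x → 0 ≤ (x - x ^ 3 / 6 + x ^ 5 / 120) - Real.sin x := by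
    apply geo3_aux _ (fun x => (1 - x ^ 2 / 2 + x ^ 4 / 24) - Real.cos x) _ (by simp) h4
    intro x
    have := (((hasDerivAt_id x).sub ((hasDerivAt_pow 3 x).div_const 6)).add
      ((hasDerivAt_pow 5 x).div_const 120)).sub (Real.hasDerivAt_sin x)
    refine this.congr_deriv ?_
    norm_num
    ring
  have h6 : ∀ x : ℝ, 0 ≤ x → 0 ≤ Real.cos x - (1 - x ^ 2 / 2 + x ^ 4 / 24 - x ^ 6 / 720) := by
    apply geo3_aux _ (fun x => (x - x ^ 3 / 6 + x ^ 5 / 120) - Real.sin x) _ (by simp) h5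
    intro x
    have := (Real.hasDerivAt_cos x).sub
      ((((hasDerivAt_const x (1 : ℝ)).sub ((hasDerivAt_pow 2 x).div_const 2)).add
        ((hasDerivAt_pow 4 x).div_const 24)).sub ((hasDerivAt_pow 6 x).div_const 720))
    refine this.congr_deriv ?_
    norm_num
    ring
  have := h6 x hx
  linarith

end Pool.Agent.Helper95.SIG
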